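import Pool.Agent.UMG.StmtsA

/-!
# Squad UMG, row ANA: the result of block A
-/

set_option autoImplicit false

namespace Pool.Agent.UMG.H58A

open Finset
open Pool.Agent.UMG

theorem e_nonneg (w : ℕ → ℝ) (h : ∀ l, 1 ≤ l → 0 ≤ w l) (n : ℕ) : 0 ≤ E w n := by
  induction n using Nat.strong_induction_on with
  | _ n ih =>
    match n with
    | 0 => rw [E]; exact zero_le_one
    | n + 1 =>
      rw [E, Rat.smul_def]
      refine mul_nonneg (by positivity) (sum_nonneg fun i hi => mul_nonneg (h _ (by omega))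
        (ih _ (by omega)))

theorem ps_nonneg (K : ℕ) (x : ℕ → ℝ) (h : ∀ l, 0 ≤ x l) (d : List ℕ) : 0 ≤ PS K x d := by
  unfold PS
  refine prod_nonneg fun k _ => e_nonneg _ (fun l _ => ?_) _
  unfold ws
  split_ifs
  · exact e_nonneg _ (fun i _ => by split_ifs; exacts [h _, le_refl _]) _
  · unfold hh
    exact e_nonneg _ (fun i _ => h _) _
  · exact le_refl _

theorem gam_pos (d : List ℕ) : 0 < gam d := by
  unfold gam
  exact prod_pos fun k _ => Nat.mul_pos (Nat.factorial_pos _) (pow_pos (Nat.factorial_pos _) _)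

theorem phi_smul (J : ℕ) (f : ℕ → ℕ → ℝ) (n : ℕ) (hn : 0 < n) (p : MvPolynomial ℕ ℝ) :
    Phi J f ((n : MvPolynomial ℕ ℝ) * p) = n * Phi J f p := by
  have h1 : (n : MvPolynomial ℕ ℝ) * p = (n : ℝ) • p := by
    rw [MvPolynomial.smul_eq_C_mul]
    simp
  have hn' : (n : ℝ) ≠ 0 := by exact_mod_cast hn.ne'
  unfold Phi
  rw [h1, MvPolynomial.support_smul_eq hn', mul_sum]
  refine sum_congr rfl fun C _ => ?_
  rw [MvPolynomial.coeff_smul, smul_eq_mul, mul_assoc]

theorem supp (hpho : PhoStmt) (K : ℕ) (hK : 6 ≤ K) (d : List ℕ) :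
    ∀ C ∈ (PP Xv d).support, C 0 = 0 ∧ ∀ i, K + d.sum < i → C i = 0 := by
  intro C hC
  obtain ⟨h1, h2⟩ := (hpho K d hK).1 C hC
  refine ⟨h2, fun i hi => ?_⟩
  by_contra hne
  have h3 : i * C i ≤ C.sum fun i c => i * c := by
    rw [Finsupp.sum]
    exact single_le_sum (f := fun i => i * C i) (fun _ _ => Nat.zero_le _)
      (Finsupp.mem_support_iff.mpr hne)
  rw [h1] at h3
  have h4 : i * 1 ≤ i * C i := Nat.mul_le_mul_left i (Nat.one_le_iff_ne_zero.mpr hne)
  omega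

theorem gs_eq (hain : AinStmt) (hgwt : GwtStmt) (hphg : PhgStmt) (J : ℕ) (f : ℕ → ℕ → ℝ)
    (d : List ℕ) (hd : d.Pairwise (· ≤ ·)) :
    gsum d (fun c => ∏ j ∈ range J, f (j + 1) (cnt c (j + 1))) = gam d * Phi J f (PP Xv d) := by
  rw [hphg J f d, hgwt _ Xv d, hain _ Xv d hd, phi_smul J f _ (gam_pos d)]

theorem phi_fr_nonneg (hgpa : GpaStmt) (K : ℕ) (hK : 6 ≤ K) (d : List ℕ) (hev : Even d.sum) :
    0 ≤ Phi (K + d.sum) Fr (PP Xv d) := by
  have h := hgpa K d ∅ hK hev (empty_subset _)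
  rw [sum_empty] at h
  have hK0 : (0 : ℝ) < K := by exact_mod_cast lt_of_lt_of_le (by norm_num) hK
  have hc : 0 < ((d.sum : ℝ) + 1) ^ K * (3 * ((d.sum : ℝ) + 1) ^ K) ^ K *
      (3 * K * ((d.sum : ℝ) + 1)) ^ K := by positivity
  exact nonneg_of_mul_nonneg_right h hc

/-- the arithmetic of the constants -/
theorem const (K : ℕ) (C : ℝ) : ∃ A : ℕ, ∀ M : ℕ,
    1 + Real.exp C * (((M : ℝ) + 1) ^ K * (3 * ((M : ℝ) + 1) ^ K) ^ K * (3 * K * ((M : ℝ) + 1)) ^ K) ≤
      ((M : ℝ) + 2) ^ A := by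
  obtain ⟨a, ha⟩ := pow_unbounded_of_one_lt (1 + Real.exp C) (one_lt_two : (1 : ℝ) < 2)
  obtain ⟨b, hb⟩ := pow_unbounded_of_one_lt (3 * (K : ℝ)) (one_lt_two : (1 : ℝ) < 2)
  refine ⟨a + (K + (2 + K) * K + (b + 1) * K), fun M => ?_⟩
  set T : ℝ := (M : ℝ) + 2 with hT
  have hM0 : (0 : ℝ) ≤ M := Nat.cast_nonneg M
  have hT2 : (2 : ℝ) ≤ T := by rw [hT]; linarith
  have h1 : (M : ℝ) + 1 ≤ T := by rw [hT]; linarith
  have h0 : 0 ≤ (M : ℝ) + 1 := by linarith
  have hTa : 1 + Real.exp C ≤ T ^ a := ha.le.trans (pow_le_pow_left₀ (by norm_num) hT2 a)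
  have hTb : 3 * (K : ℝ) ≤ T ^ b := hb.le.trans (pow_le_pow_left₀ (by norm_num) hT2 b)
  have h3 : (3 : ℝ) ≤ T ^ 2 := by nlinarith
  have e1 : ((M : ℝ) + 1) ^ K ≤ T ^ K := pow_le_pow_left₀ h0 h1 K
  have e2 : (3 * ((M : ℝ) + 1) ^ K) ^ K ≤ (T ^ 2 * T ^ K) ^ K :=
    pow_le_pow_left₀ (by positivity) (mul_le_mul h3 e1 (by positivity) (by positivity)) K
  have e3 : (3 * K * ((M : ℝ) + 1)) ^ K ≤ (T ^ b * T) ^ K :=
    pow_le_pow_left₀ (by positivity) (mul_le_mul hTb h1 h0 (by positivity)) K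
  have hX : ((M : ℝ) + 1) ^ K * (3 * ((M : ℝ) + 1) ^ K) ^ K * (3 * K * ((M : ℝ) + 1)) ^ K ≤
      T ^ (K + (2 + K) * K + (b + 1) * K) := by
    calc _ ≤ T ^ K * (T ^ 2 * T ^ K) ^ K * (T ^ b * T) ^ K :=
          mul_le_mul (mul_le_mul e1 e2 (by positivity) (by positivity)) e3 (by positivity)
            (by positivity)
      _ = T ^ (K + (2 + K) * K + (b + 1) * K) := by
          rw [← pow_add, ← pow_succ, ← pow_mul, ← pow_mul, ← pow_add, ← pow_add]
  have hX1 : 1 ≤ T ^ (K + (2 + K) * K + (b + 1) * K) := one_le_pow₀ (by linarith)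
  have he : 0 < Real.exp C := Real.exp_pos C
  calc _ ≤ T ^ (K + (2 + K) * K + (b + 1) * K) +
        Real.exp C * T ^ (K + (2 + K) * K + (b + 1) * K) :=
        add_le_add hX1 (mul_le_mul_of_nonneg_left hX he.le)
    _ = (1 + Real.exp C) * T ^ (K + (2 + K) * K + (b + 1) * K) := by ring
    _ ≤ T ^ a * T ^ (K + (2 + K) * K + (b + 1) * K) :=
        mul_le_mul_of_nonneg_right hTa (by positivity)
    _ = T ^ (a + (K + (2 + K) * K + (b + 1) * K)) := (pow_add T a _).symm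

theorem ana (hain : AinStmt) (hgwt : GwtStmt) (hphg : PhgStmt) (hpho : PhoStmt) (hevp : EvpStmt)
    (hgrd : GrdStmt) (hnfa : NfaStmt) (hest : EstStmt) (hfld : FldStmt) (hgpa : GpaStmt)
    (hbad : BadStmt) (hsma : SmaStmt) (hctb : CtbStmt) : AnaStmt := by
  intro η hη0 hη1
  set K : ℕ := max 6 ⌈2 / η⌉₊ with hKdef
  have hK : 6 ≤ K := le_max_left _ _
  have hηK : 2 ≤ η * K := by
    have h1 : (2 / η : ℝ) ≤ K := (Nat.le_ceil _).trans (by exact_mod_cast le_max_right _ _)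
    rw [div_le_iff₀ hη0] at h1
    linarith
  obtain ⟨C, M1, hC, hE⟩ := hest η K hη0 hη1 hηK
  obtain ⟨M2, hB⟩ := hbad η K hη0 hη1 hηK hK
  obtain ⟨A1, hA1⟩ := const K C
  set M0 := max (max M1 M2) 3 with hM0
  obtain ⟨A0, hA0⟩ := hsma K M0
  refine ⟨K, max A0 A1, hK, fun d hds hd => ?_⟩
  have hd1 : ∀ k ∈ d, 1 ≤ k := fun k hk => le_trans (by norm_num) (hd.1 k hk).1
  have hev : Even d.sum := hd.2
  have hphi := phi_fr_nonneg hgpa K hK d hev
  have hgam : (0 : ℝ) < gam d := by exact_mod_cast gam_pos d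
  have hT1 : (1 : ℝ) ≤ (d.sum : ℝ) + 2 := by
    have : (0 : ℝ) ≤ d.sum := Nat.cast_nonneg _
    linarith
  by_cases hsmall : d.sum ≤ M0
  · refine (hA0 d hd1 hev hsmall).trans (mul_le_mul_of_nonneg_right
      (pow_le_pow_right₀ hT1 (le_max_left _ _)) ?_)
    rw [gs_eq hain hgwt hphg _ _ d hds]
    exact mul_nonneg hgam.le hphi
  · have hbig : M0 ≤ d.sum := by omega
    have hM1 : M1 ≤ d.sum := ((le_max_left _ _).trans (le_max_left _ _)).trans hbig
    have hM2 : M2 ≤ d.sum := ((le_max_right _ _).trans (le_max_left _ _)).trans hbig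
    have hM3 : 3 ≤ d.sum := (le_max_right _ _).trans hbig
    rw [gs_eq hain hgwt hphg _ _ d hds, gs_eq hain hgwt hphg _ _ d hds]
    have hmain : Phi (K + d.sum) (G d.sum K) (PP Xv d) ≤
        ((d.sum : ℝ) + 2) ^ (max A0 A1) * Phi (K + d.sum) Fr (PP Xv d) := by
      have hM3r : (3 : ℝ) ≤ (d.sum : ℝ) := by exact_mod_cast hM3
      have hsq : 0 < Real.sqrt (d.sum : ℝ) := Real.sqrt_pos.mpr (by linarith)
      have hxe : 0 < Real.sqrt (d.sum : ℝ) / Real.exp 1 := div_pos hsq (Real.exp_pos 1)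
      rw [hgrd d.sum K (PP Xv d) (supp hpho K hK d)]
      have hrw : ∑ g ∈ range ((d.sum + 1) ^ K), ctp d.sum K g *
          MvPolynomial.eval (fg d.sum K g) (PP Xv d) =
          ∑ g ∈ range ((d.sum + 1) ^ K), ctp d.sum K g * PP (fg d.sum K g) d :=
        sum_congr rfl fun g _ => by rw [(hevp K (fg d.sum K g) d).1]
      rw [hrw, ← sum_filter_not_add_sum_filter (range ((d.sum + 1) ^ K))
        (fun g => fg d.sum K g 1 < Real.sqrt d.sum / Real.exp 1)]
      have hbad' := hB d hd hM2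
      have hctp : ∀ g, 0 ≤ ctp d.sum K g := by
        intro g
        unfold ctp
        exact prod_nonneg fun j _ => (hctb d.sum (j + 1) _).1
      have hfb : ∀ g j, 0 < fg d.sum K g j ∧ fg d.sum K g j ≤ (K : ℝ) * Real.sqrt d.sum := by
        intro g j
        unfold fg
        refine hfld K d.sum _ j hK hM3 fun i => ?_
        unfold dg
        exact Nat.lt_succ_iff.mp (Nat.mod_lt _ (Nat.succ_pos _))
      have hgood : ∑ g ∈ (range ((d.sum + 1) ^ K)).filter
          (fun g => ¬ fg d.sum K g 1 < Real.sqrt d.sum / Real.exp 1),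
          ctp d.sum K g * PP (fg d.sum K g) d ≤
          Real.exp C * (((d.sum : ℝ) + 1) ^ K * (3 * ((d.sum : ℝ) + 1) ^ K) ^ K *
            (3 * K * ((d.sum : ℝ) + 1)) ^ K) * Phi (K + d.sum) Fr (PP Xv d) := by
        have hg := hgpa K d ((range ((d.sum + 1) ^ K)).filter
          (fun g => ¬ fg d.sum K g 1 < Real.sqrt d.sum / Real.exp 1)) hK hev (filter_subset _ _)
        calc _ ≤ ∑ g ∈ (range ((d.sum + 1) ^ K)).filter
              (fun g => ¬ fg d.sum K g 1 < Real.sqrt d.sum / Real.exp 1),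
              Real.exp C * (ctp d.sum K g * PS K (fg d.sum K g) d) := by
              refine sum_le_sum fun g hgm => ?_
              have hge := not_lt.mp (mem_filter.mp hgm).2
              have hF : Fld K d.sum (fg d.sum K g) :=
                ⟨fun i => (hfb g i).1.le, fun i _ _ => (hfb g i).2, hge⟩
              have h1 := hnfa K (fg d.sum K g) d (by omega) hF.1 (hfb g 1).1
              have h2 := (hE d (fg d.sum K g) hd hM1 hF).1
              have h3 := ps_nonneg K (fg d.sum K g) hF.1 d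
              have h4 : PP (fg d.sum K g) d ≤ PS K (fg d.sum K g) d * Real.exp C :=
                h1.trans (mul_le_mul_of_nonneg_left (Real.exp_le_exp.mpr h2) h3)
              calc ctp d.sum K g * PP (fg d.sum K g) d ≤
                  ctp d.sum K g * (PS K (fg d.sum K g) d * Real.exp C) :=
                    mul_le_mul_of_nonneg_left h4 (hctp g)
                _ = _ := by ring
          _ = Real.exp C * ∑ g ∈ (range ((d.sum + 1) ^ K)).filter
              (fun g => ¬ fg d.sum K g 1 < Real.sqrt d.sum / Real.exp 1),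
              (ctp d.sum K g * PS K (fg d.sum K g) d) := by rw [mul_sum]
          _ ≤ _ := by
              refine (mul_le_mul_of_nonneg_left hg (Real.exp_pos C).le).trans (le_of_eq ?_)
              ring
      calc _ ≤ Real.exp C * (((d.sum : ℝ) + 1) ^ K * (3 * ((d.sum : ℝ) + 1) ^ K) ^ K *
            (3 * K * ((d.sum : ℝ) + 1)) ^ K) * Phi (K + d.sum) Fr (PP Xv d) +
            Phi (K + d.sum) Fr (PP Xv d) := add_le_add hgood hbad'
        _ = (1 + Real.exp C * (((d.sum : ℝ) + 1) ^ K * (3 * ((d.sum : ℝ) + 1) ^ K) ^ K *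
            (3 * K * ((d.sum : ℝ) + 1)) ^ K)) * Phi (K + d.sum) Fr (PP Xv d) := by ring
        _ ≤ ((d.sum : ℝ) + 2) ^ A1 * Phi (K + d.sum) Fr (PP Xv d) :=
            mul_le_mul_of_nonneg_right (hA1 d.sum) hphi
        _ ≤ _ := mul_le_mul_of_nonneg_right (pow_le_pow_right₀ hT1 (le_max_right _ _)) hphi
    calc (gam d : ℝ) * Phi (K + d.sum) (G d.sum K) (PP Xv d) ≤
        gam d * (((d.sum : ℝ) + 2) ^ (max A0 A1) * Phi (K + d.sum) Fr (PP Xv d)) :=
          mul_le_mul_of_nonneg_left hmain hgam.le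
      _ = _ := by ring

end Pool.Agent.UMG.H58A
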