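import Pool.Agent.UMG.StmtsA

/-!
# Squad UMG, row BAD: the bad part
-/

set_option autoImplicit false

namespace Pool.Agent.UMG.H58

open Finset
open Pool.Agent.UMG

theorem hh_mono (hmon : MonStmt) (x y : ℕ → ℝ) (h0 : ∀ j, 1 ≤ j → 0 ≤ x j) (h1 : ∀ j, 1 ≤ j → x j ≤ y j)
    (l k : ℕ) (hl : 1 ≤ l) : 0 ≤ hh x l k ∧ hh x l k ≤ hh y l k := by
  unfold hh
  refine hmon _ _ k fun i hi _ => ?_
  have : 1 ≤ l * i := Nat.one_le_iff_ne_zero.mpr (Nat.mul_ne_zero (by omega) (by omega))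
  exact ⟨h0 _ this, h1 _ this⟩

theorem pp_mono (hmon : MonStmt) (x y : ℕ → ℝ) (h0 : ∀ j, 1 ≤ j → 0 ≤ x j) (h1 : ∀ j, 1 ≤ j → x j ≤ y j)
    (d : List ℕ) : 0 ≤ PP x d ∧ PP x d ≤ PP y d := by
  unfold PP
  have key : ∀ k ∈ d.toFinset, 0 ≤ aa x k (d.count k) ∧ aa x k (d.count k) ≤ aa y k (d.count k) := by
    intro k _
    unfold aa
    exact hmon _ _ _ fun l hl _ => hh_mono hmon x y h0 h1 l k hl
  exact ⟨prod_nonneg fun k hk => (key k hk).1,
    prod_le_prod (fun k hk => (key k hk).1) fun k hk => (key k hk).2⟩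

theorem gam_pos (d : List ℕ) : 0 < gam d := by
  unfold gam
  exact prod_pos fun k _ => Nat.mul_pos (Nat.factorial_pos _) (pow_pos (Nat.factorial_pos _) _)

theorem phi_low (htop : TopStmt) (hpnn : PnnStmt) (K : ℕ) (d : List ℕ) (hd : ∀ k ∈ d, 1 ≤ k)
    (hM : 1 ≤ d.sum) :
    1 / (gam d : ℝ) * Fr 1 d.sum ≤ Phi (K + d.sum) Fr (PP Xv d) := by
  unfold Phi
  have hg : (0 : ℝ) < gam d := by exact_mod_cast gam_pos d
  have hc := htop d hd
  have hmem : Finsupp.single 1 d.sum ∈ (PP Xv d).support := by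
    rw [MvPolynomial.mem_support_iff, hc]
    positivity
  have hnn : ∀ C ∈ (PP Xv d).support,
      0 ≤ (PP Xv d).coeff C * ∏ j ∈ range (K + d.sum), Fr (j + 1) (C (j + 1)) := by
    intro C _
    refine mul_nonneg ?_ (prod_nonneg fun j _ => ?_)
    · exact (hpnn 1 d C).1.trans (hpnn 1 d C).2
    · unfold Fr
      exact Nat.cast_nonneg _
  refine le_trans (le_of_eq ?_) (single_le_sum hnn hmem)
  rw [hc]
  congr 1
  have h1 : ∏ j ∈ range (K + d.sum), Fr (j + 1) ((Finsupp.single 1 d.sum : ℕ →₀ ℕ) (j + 1)) =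
      ∏ j ∈ range (K + d.sum), (if j = 0 then Fr 1 d.sum else 1) := by
    refine prod_congr rfl fun j _ => ?_
    by_cases hj : j = 0
    · subst hj
      simp
    · rw [if_neg hj, Finsupp.single_eq_of_ne (by omega)]
      simp [Fr, F]
  rw [h1, prod_ite_eq' (range (K + d.sum)) 0 (fun _ => Fr 1 d.sum), if_pos]
  rw [mem_range]
  omega

theorem bad (hnfb : NfbStmt) (hest : EstStmt) (hasy : AsyStmt) (hctb : CtbStmt) (hfld : FldStmt)
    (hf1l : F1lStmt) (htop : TopStmt) (hmon : MonStmt) (hpnn : PnnStmt) : BadStmt := by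
  intro η K hη0 hη1 hηK hK
  obtain ⟨C, M1, hC, hE⟩ := hest η K hη0 hη1 hηK
  obtain ⟨M2, hA⟩ := hasy η C K hη0 hC
  refine ⟨max (max M1 M2) 3, fun d hd hM0 => ?_⟩
  have hM1 : M1 ≤ d.sum := ((le_max_left _ _).trans (le_max_left _ _)).trans hM0
  have hM2 : M2 ≤ d.sum := ((le_max_right _ _).trans (le_max_left _ _)).trans hM0
  have hM3 : 3 ≤ d.sum := (le_max_right _ _).trans hM0
  have hd1 : ∀ k ∈ d, 1 ≤ k := fun k hk => le_trans (by norm_num) (hd.1 k hk).1
  set M := d.sum with hMdef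
  have hMr : (3 : ℝ) ≤ M := by exact_mod_cast hM3
  have hsq : 0 < Real.sqrt M := Real.sqrt_pos.mpr (by linarith)
  have he : 0 < Real.exp 1 := Real.exp_pos 1
  have he1 : 1 ≤ Real.exp 1 := Real.one_le_exp (by norm_num)
  have hxe : 0 < Real.sqrt M / Real.exp 1 := div_pos hsq he
  have hxle : Real.sqrt M / Real.exp 1 ≤ (K : ℝ) * Real.sqrt M := by
    have h1 : Real.sqrt M / Real.exp 1 ≤ Real.sqrt M := div_le_self hsq.le he1
    have h2 : (1 : ℝ) ≤ K := by exact_mod_cast le_trans (by norm_num) hK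
    nlinarith
  have hgam : (0 : ℝ) < gam d := by exact_mod_cast gam_pos d
  -- the field bounds
  have hfb : ∀ g j, 0 < fg M K g j ∧ fg M K g j ≤ (K : ℝ) * Real.sqrt M := by
    intro g j
    unfold fg
    refine hfld K M _ j hK hM3 fun i => ?_
    unfold dg
    exact Nat.lt_succ_iff.mp (Nat.mod_lt _ (Nat.succ_pos M))
  -- the bound of one term
  have hterm : ∀ g, fg M K g 1 < Real.sqrt M / Real.exp 1 →
      PP (fg M K g) d ≤ (Real.sqrt M / Real.exp 1) ^ M / (gam d : ℝ) *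
        Real.exp (C * (M : ℝ) ^ (1 - η)) ∧ 0 ≤ PP (fg M K g) d := by
    intro g hg
    let x : ℕ → ℝ := fun j => if j = 1 then Real.sqrt M / Real.exp 1 else fg M K g j
    have hx1 : x 1 = Real.sqrt M / Real.exp 1 := if_pos rfl
    have hF : Fld K M x := by
      refine ⟨fun i => ?_, fun i _ _ => ?_, le_of_eq hx1.symm⟩
      · by_cases hi : i = 1
        · rw [hi, hx1]; exact hxe.le
        · show 0 ≤ (if i = 1 then _ else _)
          rw [if_neg hi]; exact (hfb g i).1.le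
      · by_cases hi : i = 1
        · rw [hi, hx1]; exact hxle
        · show (if i = 1 then _ else _) ≤ _
          rw [if_neg hi]; exact (hfb g i).2
    have hmono := pp_mono hmon (fg M K g) x (fun j _ => (hfb g j).1.le) (fun j _ => by
      show _ ≤ (if j = 1 then _ else _)
      by_cases hj : j = 1
      · rw [if_pos hj, hj]; exact hg.le
      · rw [if_neg hj]) d
    refine ⟨hmono.2.trans ?_, hmono.1⟩
    have h1 := hnfb x d hF.1 (by rw [hx1]; exact hxe)
    rw [hx1, ← hMdef] at h1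
    refine h1.trans ?_
    have h2 := (hE d x hd hM1 hF).2
    exact mul_le_mul_of_nonneg_left (Real.exp_le_exp.mpr h2) (by positivity)
  -- the sum
  set B : ℝ := (Real.sqrt M / Real.exp 1) ^ M / (gam d : ℝ) * Real.exp (C * (M : ℝ) ^ (1 - η)) with hB
  have hBnn : 0 ≤ B := by positivity
  have hctp : ∀ g, 0 ≤ ctp M K g ∧ ctp M K g ≤ 1 := by
    intro g
    unfold ctp
    exact ⟨prod_nonneg fun j _ => (hctb M (j + 1) _).1,
      prod_le_one (fun j _ => (hctb M (j + 1) _).1) fun j _ => (hctb M (j + 1) _).2⟩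
  have hsum : ∑ g ∈ (range ((M + 1) ^ K)).filter (fun g => fg M K g 1 < Real.sqrt M / Real.exp 1),
      ctp M K g * PP (fg M K g) d ≤ ((M : ℝ) + 1) ^ K * B := by
    calc _ ≤ ∑ g ∈ (range ((M + 1) ^ K)).filter
            (fun g => fg M K g 1 < Real.sqrt M / Real.exp 1), B := by
          refine sum_le_sum fun g hg => ?_
          have hg' := (mem_filter.mp hg).2
          obtain ⟨h1, h2⟩ := hterm g hg'
          calc ctp M K g * PP (fg M K g) d ≤ 1 * PP (fg M K g) d :=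
                mul_le_mul_of_nonneg_right (hctp g).2 h2
            _ ≤ B := by rw [one_mul]; exact h1
      _ ≤ ∑ g ∈ range ((M + 1) ^ K), B :=
          sum_le_sum_of_subset_of_nonneg (filter_subset _ _) fun _ _ _ => hBnn
      _ = ((M : ℝ) + 1) ^ K * B := by
          rw [sum_const, card_range, nsmul_eq_mul]
          push_cast
          ring
  refine hsum.trans ?_
  -- the other side
  have hlow := phi_low htop hpnn K d hd1 (by omega)
  rw [← hMdef] at hlow
  refine le_trans ?_ hlow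
  have hev : Even M := hd.2
  have hf1 := hf1l M hev
  have hs : (Real.sqrt M / Real.exp 1) ^ M =
      (Real.sqrt M / Real.exp (1 / 2)) ^ M * Real.exp (-((M : ℝ) / 2)) := by
    have h1 : Real.exp 1 = Real.exp (1 / 2) * Real.exp (1 / 2) := by
      rw [← Real.exp_add]; norm_num
    have h2 : Real.exp (-((M : ℝ) / 2)) = ((Real.exp (1 / 2)) ^ M)⁻¹ := by
      rw [← Real.exp_nat_mul, ← Real.exp_neg]
      congr 1
      ring
    rw [h1, h2, div_pow, div_pow, mul_pow, div_mul_eq_div_div, div_eq_mul_inv (Real.sqrt M ^ M / _)]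
  have hasy' := hA M hM2
  have hexp : Real.exp ((M : ℝ) / 2) * Real.exp (-((M : ℝ) / 2)) = 1 := by
    rw [← Real.exp_add]; simp
  have hFr : 0 ≤ Fr 1 M := by unfold Fr; exact Nat.cast_nonneg _
  have hfin : ((M : ℝ) + 1) ^ K * ((Real.sqrt M / Real.exp 1) ^ M *
      Real.exp (C * (M : ℝ) ^ (1 - η))) ≤ Fr 1 M := by
    rw [hs]
    calc ((M : ℝ) + 1) ^ K * ((Real.sqrt M / Real.exp (1 / 2)) ^ M * Real.exp (-((M : ℝ) / 2)) *
          Real.exp (C * (M : ℝ) ^ (1 - η)))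
        = (Real.sqrt M / Real.exp (1 / 2)) ^ M * (((M : ℝ) + 1) ^ K * Real.exp (-((M : ℝ) / 2)) *
          Real.exp (C * (M : ℝ) ^ (1 - η))) := by ring
      _ ≤ (3 * ((M : ℝ) + 1) * Fr 1 M) * (((M : ℝ) + 1) ^ K * Real.exp (-((M : ℝ) / 2)) *
          Real.exp (C * (M : ℝ) ^ (1 - η))) :=
          mul_le_mul_of_nonneg_right hf1 (by positivity)
      _ = Fr 1 M * Real.exp (-((M : ℝ) / 2)) * (3 * ((M : ℝ) + 1) * ((M : ℝ) + 1) ^ K *
          Real.exp (C * (M : ℝ) ^ (1 - η))) := by ring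
      _ ≤ Fr 1 M * Real.exp (-((M : ℝ) / 2)) * Real.exp ((M : ℝ) / 2) :=
          mul_le_mul_of_nonneg_left hasy' (mul_nonneg hFr (Real.exp_pos _).le)
      _ = Fr 1 M := by rw [mul_assoc, mul_comm (Real.exp (-((M : ℝ) / 2))), hexp, mul_one]
  have hBe : ((M : ℝ) + 1) ^ K * B = 1 / (gam d : ℝ) * (((M : ℝ) + 1) ^ K *
      ((Real.sqrt M / Real.exp 1) ^ M * Real.exp (C * (M : ℝ) ^ (1 - η)))) := by
    rw [hB]; ring
  rw [hBe]
  exact mul_le_mul_of_nonneg_left hfin (by positivity)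

end Pool.Agent.UMG.H58
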