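import Pool.Agent.UMG.StmtsD

/-!
# Squad UMG, row FAI: the failure probability
-/

set_option autoImplicit false

namespace Pool.Agent.UMG.H58

open Finset
open Pool.Agent.UMG

theorem bern (f p m : ℕ) : f ^ (m + 1) + (m + 1) * p * f ^ m ≤ (f + p) ^ (m + 1) := by
  induction m with
  | zero => simp
  | succ m ih =>
    calc f ^ (m + 1 + 1) + (m + 1 + 1) * p * f ^ (m + 1)
        ≤ (f ^ (m + 1) + (m + 1) * p * f ^ m) * (f + p) := by
          have : (f ^ (m + 1) + (m + 1) * p * f ^ m) * (f + p) =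
              f ^ (m + 1 + 1) + (m + 1 + 1) * p * f ^ (m + 1) + (m + 1) * p * f ^ m * p := by ring
          omega
      _ ≤ (f + p) ^ (m + 1) * (f + p) := Nat.mul_le_mul_right _ ih
      _ = (f + p) ^ (m + 1 + 1) := (pow_succ _ _).symm

theorem fai : FaiStmt := by
  intro L a f p s hfp hp ha
  have h1 : 2 * f ^ (2 * a) ≤ (2 ^ L) ^ (2 * a) := by
    obtain ⟨m, hm⟩ : ∃ m, 2 * a = m + 1 := ⟨2 * a - 1, by omega⟩
    rw [hm] at hp ⊢
    have h2 := bern f p m
    rw [hfp] at h2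
    have h3 : f ≤ (m + 1) * p := by omega
    have h4 : f * f ^ m ≤ (m + 1) * p * f ^ m := Nat.mul_le_mul_right _ h3
    have h5 : f ^ (m + 1) = f * f ^ m := by ring
    omega
  calc 2 ^ s * f ^ (2 * a * s) = (2 * f ^ (2 * a)) ^ s := by rw [mul_pow, ← pow_mul]
    _ ≤ ((2 ^ L) ^ (2 * a)) ^ s := Nat.pow_le_pow_left h1 s
    _ = 2 ^ (L * (2 * a * s)) := by rw [← pow_mul, ← pow_mul, mul_assoc]

end Pool.Agent.UMG.H58
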