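import Pool.Agent.UMG.StmtsK

/-!
# Squad UMG, row VIT: vector iteration
-/

set_option autoImplicit false

namespace Pool.Agent.UMG.H58V

open Finset
open Pool.Agent.UMG

theorem pf_local {k m : ℕ} {f : Fn} (hf : PF k m f) (x : Inp) (a a' b b' : ℕ → ℕ)
    (ha : ∀ i < k, a i = a' i) (hb : ∀ i < m, b i = b' i) : f x a b = f x a' b' := by
  obtain ⟨e, C, h⟩ := hf
  rw [← (h x a b).1, ← (h x a' b').1]
  have h1 : args k m a b = args k m a' b' := by
    unfold args
    congr 1
    · exact List.map_congr_left fun i hi => ha i (List.mem_range.mp hi)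
    · exact List.map_congr_left fun i hi => hb i (List.mem_range.mp hi)
  rw [h1]

theorem cmp' (hcmp : CmpStmt) {k m k' m' : ℕ} {f : Fn} (hf : PF k' m' f) (G H : ℕ → Fn)
    (hG : ∀ i < k', PB k m (G i)) (hH : ∀ i < m', PF k m (H i)) :
    PF k m (fun x a b => f x (fun i => G i x a b) (fun i => H i x a b)) := by
  have h := hcmp k m f ((List.range k').map G) ((List.range m').map H)
    (by simpa using hf)
    (by
      intro g hg
      obtain ⟨i, hi, rfl⟩ := List.mem_map.mp hg
      exact hG i (List.mem_range.mp hi))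
    (by
      intro g hg
      obtain ⟨i, hi, rfl⟩ := List.mem_map.mp hg
      exact hH i (List.mem_range.mp hi))
  have e : (fun x a b => f x (fun i => G i x a b) (fun i => H i x a b)) =
      (fun x a b => f x (fun i => (((List.range k').map G).map (fun g => g x a b)).getD i 0)
        (fun i => (((List.range m').map H).map (fun g => g x a b)).getD i 0)) := by
    funext x a b
    refine pf_local hf x _ _ _ _ (fun i hi => ?_) (fun i hi => ?_)
    · simp [List.getD, hi]
    · simp [List.getD, hi]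
  rw [e]
  exact h

theorem cmb' (hcmb : Cmb2Stmt) {k m k' m' : ℕ} {f : Fn} (hf : PB k' m' f) (G H : ℕ → Fn)
    (hG : ∀ i < k', PB k m (G i)) (hH : ∀ i < m', PF k m (H i)) :
    PB k m (fun x a b => f x (fun i => G i x a b) (fun i => H i x a b)) := by
  have h := hcmb k m f ((List.range k').map G) ((List.range m').map H)
    (by simpa using hf)
    (by
      intro g hg
      obtain ⟨i, hi, rfl⟩ := List.mem_map.mp hg
      exact hG i (List.mem_range.mp hi))
    (by
      intro g hg
      obtain ⟨i, hi, rfl⟩ := List.mem_map.mp hg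
      exact hH i (List.mem_range.mp hi))
  have e : (fun x a b => f x (fun i => G i x a b) (fun i => H i x a b)) =
      (fun x a b => f x (fun i => (((List.range k').map G).map (fun g => g x a b)).getD i 0)
        (fun i => (((List.range m').map H).map (fun g => g x a b)).getD i 0)) := by
    funext x a b
    refine pf_local hf.1 x _ _ _ _ (fun i hi => ?_) (fun i hi => ?_)
    · simp [List.getD, hi]
    · simp [List.getD, hi]
  rw [e]
  exact h

theorem pf_sum (harf : ArfStmt) (hvar : VarStmt) {k m : ℕ} (q : ℕ) (f : ℕ → Fn)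
    (hf : ∀ j < q, PF k m (f j)) : PF k m (fun x a b => ∑ j ∈ range q, f j x a b) := by
  induction q with
  | zero =>
    have h := ((hvar k m).2.2.1 0).1
    have e : (fun (x : Inp) (a b : ℕ → ℕ) => ∑ j ∈ range 0, f j x a b) = fun _ _ _ => 0 := by
      funext x a b
      simp
    rw [e]
    exact h
  | succ q ih =>
    have h1 := ih (fun j hj => hf j (by omega))
    have h2 := (harf k m _ _ h1 (hf q (by omega))).1
    have e : (fun (x : Inp) (a b : ℕ → ℕ) => ∑ j ∈ range (q + 1), f j x a b) =
        fun x a b => (∑ j ∈ range q, f j x a b) + f q x a b := by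
      funext x a b
      exact sum_range_succ _ _
    rw [e]
    exact h2

theorem pb_cpow (harb : ArbStmt) (hvar : VarStmt) {k m : ℕ} {f : Fn} (hf : PB k m f) (C : ℕ) :
    PB k m (fun x a b => f x a b ^ C) := by
  induction C with
  | zero =>
    have e : (fun (x : Inp) (a b : ℕ → ℕ) => f x a b ^ 0) = fun _ _ _ => 1 := by
      funext x a b
      exact pow_zero _
    rw [e]
    exact (hvar k m).2.2.1 1
  | succ C ih =>
    have e : (fun (x : Inp) (a b : ℕ → ℕ) => f x a b ^ (C + 1)) =
        fun x a b => f x a b ^ C * f x a b := by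
      funext x a b
      exact pow_succ _ _
    rw [e]
    exact (harb k m _ _ ih hf).2.2.1

/-- the packed vector -/
def pack (B q1 q2 : ℕ) (s S : ℕ → ℕ) : ℕ := ∑ j ∈ range (q1 + q2), app q1 s S j * B ^ j

theorem dig_aux (B q : ℕ) (v : ℕ → ℕ) (hv : ∀ j < q, v j < B) :
    (∀ i < q, (∑ j ∈ range q, v j * B ^ j) / B ^ i % B = v i) ∧
      ∑ j ∈ range q, v j * B ^ j < B ^ q := by
  induction q generalizing v with
  | zero => exact ⟨fun i hi => absurd hi (Nat.not_lt_zero _), by simp⟩
  | succ q ih =>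
    have hB : 0 < B := lt_of_le_of_lt (Nat.zero_le _) (hv 0 (by omega))
    obtain ⟨h1, h2⟩ := ih (fun j => v (j + 1)) (fun j hj => hv (j + 1) (by omega))
    have e : ∑ j ∈ range (q + 1), v j * B ^ j =
        v 0 + B * ∑ j ∈ range q, v (j + 1) * B ^ j := by
      rw [sum_range_succ', mul_sum, add_comm]
      congr 1
      · simp
      · exact sum_congr rfl fun j _ => by ring
    have hd : (v 0 + B * ∑ j ∈ range q, v (j + 1) * B ^ j) / B =
        ∑ j ∈ range q, v (j + 1) * B ^ j := by
      rw [Nat.add_mul_div_left _ _ hB, Nat.div_eq_of_lt (hv 0 (by omega)), zero_add]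
    refine ⟨fun i hi => ?_, ?_⟩
    · rw [e]
      cases i with
      | zero =>
        rw [pow_zero, Nat.div_one, Nat.add_mul_mod_self_left]
        exact Nat.mod_eq_of_lt (hv 0 (by omega))
      | succ i =>
        rw [pow_succ', ← Nat.div_div_eq_div_mul, hd]
        exact h1 i (by omega)
    · rw [e]
      have h3 : v 0 < B := hv 0 (by omega)
      have h4 : ∑ j ∈ range q, v (j + 1) * B ^ j + 1 ≤ B ^ q := h2
      have h5 : B * (∑ j ∈ range q, v (j + 1) * B ^ j + 1) ≤ B * B ^ q := Nat.mul_le_mul_left B h4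
      rw [pow_succ']
      have h6 : B * (∑ j ∈ range q, v (j + 1) * B ^ j + 1) =
          B * (∑ j ∈ range q, v (j + 1) * B ^ j) + B := by ring
      omega

theorem pack_dig (B q1 q2 : ℕ) (s S : ℕ → ℕ) (hs : ∀ j < q1, s j < B) (hS : ∀ j < q2, S j < B) :
    (∀ i < q1, pack B q1 q2 s S / B ^ i % B = s i) ∧
    (∀ i < q2, pack B q1 q2 s S / B ^ (q1 + i) % B = S i) ∧
    pack B q1 q2 s S < B ^ (q1 + q2) := by
  have hv : ∀ j < q1 + q2, app q1 s S j < B := by
    intro j hj
    unfold app
    split_ifs with h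
    · exact hs j h
    · exact hS _ (by omega)
  obtain ⟨h1, h2⟩ := dig_aux B (q1 + q2) (app q1 s S) hv
  refine ⟨fun i hi => ?_, fun i hi => ?_, h2⟩
  · have h := h1 i (by omega)
    rw [pack, h, app, if_pos hi]
  · have h := h1 (q1 + i) (by omega)
    rw [pack, h, app, if_neg (by omega)]
    congr 1
    omega

theorem pack_congr (B q1 q2 : ℕ) (s S s' S' : ℕ → ℕ) (hs : ∀ j < q1, s j = s' j)
    (hS : ∀ j < q2, S j = S' j) : pack B q1 q2 s S = pack B q1 q2 s' S' := by
  unfold pack
  refine sum_congr rfl fun j hj => ?_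
  have hj' := mem_range.mp hj
  congr 1
  unfold app
  split_ifs with h
  · exact hs j h
  · exact hS _ (by omega)

theorem app_congr (q : ℕ) (s s' a : ℕ → ℕ) (h : ∀ j < q, s j = s' j) : app q s a = app q s' a := by
  funext i
  unfold app
  split_ifs with hi
  · exact h i hi
  · rfl

theorem nm_two (k m : ℕ) (x : Inp) (a b : ℕ → ℕ) : 2 ≤ nm k m x a b := by
  unfold nm nr
  omega

theorem vit (hitr : ItrStmt) (hcmp : CmpStmt) (hcmb : Cmb2Stmt) (hnmp : NmpStmt) (hpow : PowStmt)
    (harf : ArfStmt) (harb : ArbStmt) (hitf : ItfStmt) (hvar : VarStmt) : VitStmt := by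
  intro k m q1 q2 c bs bS is iS hc his hiS hbs hbS hCC
  obtain ⟨C, hC⟩ := hCC
  -- the size parameter and the base in the body
  let Nt : Fn := fun x a b => nm k m x (fun i => a (i + 1)) (fun i => b (i + 1))
  have hNt : PB (k + 1) (m + 1) Nt :=
    cmb' hcmb (hnmp k m) (fun i _ a _ => a (i + 1)) (fun i _ _ b => b (i + 1))
      (fun i hi => (hvar (k + 1) (m + 1)).1 (i + 1) (by omega))
      (fun i hi => (hvar (k + 1) (m + 1)).2.1 (i + 1) (by omega))
  have hNC : PB (k + 1) (m + 1) (fun x a b => Nt x a b ^ C) := pb_cpow harb hvar hNt C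
  let Bt : Fn := fun x a b => 2 ^ (Nt x a b ^ C)
  have hBt : PF (k + 1) (m + 1) Bt :=
    hpow (k + 1) (m + 1) (fun _ _ _ => 2) _ ((hvar (k + 1) (m + 1)).2.2.1 2).1 hNC
  have hBtj : ∀ j : ℕ, PF (k + 1) (m + 1) (fun x a b => Bt x a b ^ j) := fun j =>
    hpow (k + 1) (m + 1) Bt (fun _ _ _ => j) hBt ((hvar (k + 1) (m + 1)).2.2.1 j)
  let dig : ℕ → Fn := fun j x a b => b 0 / Bt x a b ^ j % Bt x a b
  have hdig : ∀ j, PF (k + 1) (m + 1) (dig j) := fun j =>
    (harf (k + 1) (m + 1) _ _ ((harf (k + 1) (m + 1) (fun _ _ b => b 0) _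
      ((hvar (k + 1) (m + 1)).2.1 0 (by omega)) (hBtj j)).2.2.2.1) hBt).2.2.2.2.1
  let sm : ℕ → Fn := fun j x a b =>
    if dig j x a b ≤ Nt x a b ^ C then dig j x a b else Nt x a b ^ C
  have hsm : ∀ j, PB (k + 1) (m + 1) (sm j) := fun j =>
    (harb (k + 1) (m + 1) _ _ hNC hNC).2.2.2.2.2 (sm j)
      (((hitf (k + 1) (m + 1) (dig j) _ (dig j) _ (hdig j) hNC.1).1 (hdig j) hNC.1).2.1)
      (fun x a b => by
        show (if dig j x a b ≤ Nt x a b ^ C then dig j x a b else Nt x a b ^ C) ≤ Nt x a b ^ C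
        split_ifs with h
        · exact h
        · exact le_rfl)
  let A' : Inp → (ℕ → ℕ) → (ℕ → ℕ) → ℕ → ℕ := fun x a b =>
    cns (a 0) (app q1 (fun j => sm j x a b) (fun i => a (i + 1)))
  let B' : Inp → (ℕ → ℕ) → (ℕ → ℕ) → ℕ → ℕ := fun x a b =>
    app q2 (fun j => dig (q1 + j) x a b) (fun i => b (i + 1))
  have hcomp : ∀ f : Fn, PF (k + 1 + q1) (m + q2) f →
      PF (k + 1) (m + 1) (fun x a b => f x (A' x a b) (B' x a b)) := by
    intro f hf
    refine cmp' hcmp hf (fun i x a b => A' x a b i) (fun i x a b => B' x a b i)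
      (fun i hi => ?_) (fun i hi => ?_)
    · cases i with
      | zero => exact (hvar (k + 1) (m + 1)).1 0 (by omega)
      | succ i =>
        by_cases h : i < q1
        · have e : (fun (x : Inp) (a b : ℕ → ℕ) => A' x a b (i + 1)) = sm i := by
            funext x a b
            show app q1 (fun j => sm j x a b) (fun i => a (i + 1)) i = sm i x a b
            rw [app, if_pos h]
          show PB (k + 1) (m + 1) (fun (x : Inp) (a b : ℕ → ℕ) => A' x a b (i + 1))
          rw [e]
          exact hsm i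
        · have e : (fun (x : Inp) (a b : ℕ → ℕ) => A' x a b (i + 1)) =
              fun x a b => a (i - q1 + 1) := by
            funext x a b
            show app q1 (fun j => sm j x a b) (fun i => a (i + 1)) i = a (i - q1 + 1)
            rw [app, if_neg h]
          show PB (k + 1) (m + 1) (fun (x : Inp) (a b : ℕ → ℕ) => A' x a b (i + 1))
          rw [e]
          exact (hvar (k + 1) (m + 1)).1 _ (by omega)
    · by_cases h : i < q2
      · have e : (fun (x : Inp) (a b : ℕ → ℕ) => B' x a b i) = dig (q1 + i) := by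
          funext x a b
          show app q2 (fun j => dig (q1 + j) x a b) (fun i => b (i + 1)) i = dig (q1 + i) x a b
          rw [app, if_pos h]
        show PF (k + 1) (m + 1) (fun (x : Inp) (a b : ℕ → ℕ) => B' x a b i)
        rw [e]
        exact hdig _
      · have e : (fun (x : Inp) (a b : ℕ → ℕ) => B' x a b i) = fun x a b => b (i - q2 + 1) := by
          funext x a b
          show app q2 (fun j => dig (q1 + j) x a b) (fun i => b (i + 1)) i = b (i - q2 + 1)
          rw [app, if_neg h]
        show PF (k + 1) (m + 1) (fun (x : Inp) (a b : ℕ → ℕ) => B' x a b i)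
        rw [e]
        exact (hvar (k + 1) (m + 1)).2.1 _ (by omega)
  let F : Fn := fun x a b => pack (Bt x a b) q1 q2 (fun j => bs j x (A' x a b) (B' x a b))
    (fun j => bS j x (A' x a b) (B' x a b))
  have hpack : ∀ (k' m' : ℕ) (Bf : Fn) (us uS : ℕ → Fn),
      (∀ j, PF k' m' (fun x a b => Bf x a b ^ j)) → (∀ j < q1, PF k' m' (us j)) →
      (∀ j < q2, PF k' m' (uS j)) →
      PF k' m' (fun x a b => pack (Bf x a b) q1 q2 (fun j => us j x a b)
        (fun j => uS j x a b)) := by
    intro k' m' Bf us uS h1 h2 h3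
    refine pf_sum harf hvar (q1 + q2)
      (fun j x a b => app q1 (fun j => us j x a b) (fun j => uS j x a b) j * Bf x a b ^ j)
      (fun j hj => ?_)
    by_cases h : j < q1
    · have e : (fun (x : Inp) (a b : ℕ → ℕ) =>
          app q1 (fun j => us j x a b) (fun j => uS j x a b) j * Bf x a b ^ j) =
          fun x a b => us j x a b * Bf x a b ^ j := by
        funext x a b
        rw [app, if_pos h]
      show PF k' m' (fun (x : Inp) (a b : ℕ → ℕ) =>
          app q1 (fun j => us j x a b) (fun j => uS j x a b) j * Bf x a b ^ j)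
      rw [e]
      exact (harf k' m' _ _ (h2 j h) (h1 j)).2.2.1
    · have e : (fun (x : Inp) (a b : ℕ → ℕ) =>
          app q1 (fun j => us j x a b) (fun j => uS j x a b) j * Bf x a b ^ j) =
          fun x a b => uS (j - q1) x a b * Bf x a b ^ j := by
        funext x a b
        rw [app, if_neg h]
      show PF k' m' (fun (x : Inp) (a b : ℕ → ℕ) =>
          app q1 (fun j => us j x a b) (fun j => uS j x a b) j * Bf x a b ^ j)
      rw [e]
      exact (harf k' m' _ _ (h3 (j - q1) (by omega)) (h1 j)).2.2.1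
  have hF : PF (k + 1) (m + 1) F :=
    hpack (k + 1) (m + 1) Bt (fun j x a b => bs j x (A' x a b) (B' x a b))
      (fun j x a b => bS j x (A' x a b) (B' x a b)) hBtj (fun j hj => hcomp _ (hbs j hj))
      (fun j hj => hcomp _ (hbS j hj))
  -- the base level
  have hNk : PB k m (fun x a b => nm k m x a b ^ C) := pb_cpow harb hvar (hnmp k m) C
  let Bk : Fn := fun x a b => 2 ^ (nm k m x a b ^ C)
  have hBk : PF k m Bk := hpow k m (fun _ _ _ => 2) _ ((hvar k m).2.2.1 2).1 hNk
  have hBkj : ∀ j : ℕ, PF k m (fun x a b => Bk x a b ^ j) := fun j =>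
    hpow k m Bk (fun _ _ _ => j) hBk ((hvar k m).2.2.1 j)
  let i0 : Fn := fun x a b => pack (Bk x a b) q1 q2 (fun j => is j x a b) (fun j => iS j x a b)
  have hi0 : PF k m i0 := hpack k m Bk is iS hBkj (fun j hj => (his j hj).1) hiS
  -- all components are smaller than the base
  have hlt : ∀ x a b t, t ≤ c x a b →
      (∀ j < q1, (vip q1 q2 bs bS is iS x a b t).1 j < Bk x a b) ∧
      (∀ j < q2, (vip q1 q2 bs bS is iS x a b t).2 j < Bk x a b) := by
    intro x a b t ht
    obtain ⟨h1, h2⟩ := hC x a b t ht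
    exact ⟨fun j hj => lt_of_le_of_lt (h1 j hj) Nat.lt_two_pow_self,
      fun j hj => Nat.size_le.mp (h2 j hj)⟩
  -- the states
  have hst : ∀ x a b t, t ≤ c x a b →
      (Nat.rec (i0 x a b) (fun t s => F x (cns t a) (cns s b)) t : ℕ) =
      pack (Bk x a b) q1 q2 (vip q1 q2 bs bS is iS x a b t).1
        (vip q1 q2 bs bS is iS x a b t).2 := by
    intro x a b t
    induction t with
    | zero => intro _; rfl
    | succ t ih =>
      intro ht
      have iht := ih (by omega)
      obtain ⟨g1, g2⟩ := hlt x a b t (by omega)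
      obtain ⟨d1, d2, _⟩ := pack_dig (Bk x a b) q1 q2 _ _ g1 g2
      obtain ⟨c1, _⟩ := hC x a b t (by omega)
      show F x (cns t a) (cns (Nat.rec (i0 x a b) (fun t s => F x (cns t a) (cns s b)) t) b) = _
      rw [iht]
      set P := pack (Bk x a b) q1 q2 (vip q1 q2 bs bS is iS x a b t).1
        (vip q1 q2 bs bS is iS x a b t).2 with hP
      have hA : A' x (cns t a) (cns P b) =
          cns t (app q1 (vip q1 q2 bs bS is iS x a b t).1 a) := by
        show cns t (app q1 (fun j => sm j x (cns t a) (cns P b)) a) = _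
        rw [app_congr q1 _ (vip q1 q2 bs bS is iS x a b t).1 a]
        intro j hj
        have e1 : dig j x (cns t a) (cns P b) = (vip q1 q2 bs bS is iS x a b t).1 j := d1 j hj
        show (if dig j x (cns t a) (cns P b) ≤ nm k m x a b ^ C then dig j x (cns t a) (cns P b)
          else nm k m x a b ^ C) = _
        rw [e1, if_pos (c1 j hj)]
      have hB : B' x (cns t a) (cns P b) = app q2 (vip q1 q2 bs bS is iS x a b t).2 b := by
        show app q2 (fun j => dig (q1 + j) x (cns t a) (cns P b)) b = _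
        exact app_congr q2 _ _ b fun j hj => d2 j hj
      show pack (Bk x a b) q1 q2 (fun j => bs j x (A' x (cns t a) (cns P b))
        (B' x (cns t a) (cns P b))) (fun j => bS j x (A' x (cns t a) (cns P b))
        (B' x (cns t a) (cns P b))) = _
      rw [hA, hB]
      rfl
  have hrec : PF k m (fun x a b =>
      Nat.rec (i0 x a b) (fun t s => F x (cns t a) (cns s b)) (c x a b)) := by
    refine hitr k m c i0 F hc hi0 hF ⟨C + (q1 + q2), fun x a b t ht => ?_⟩
    rw [hst x a b t ht]
    obtain ⟨g1, g2⟩ := hlt x a b t ht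
    obtain ⟨_, _, d3⟩ := pack_dig (Bk x a b) q1 q2 _ _ g1 g2
    refine Nat.size_le.mpr (lt_of_lt_of_le d3 ?_)
    show (2 ^ (nm k m x a b ^ C)) ^ (q1 + q2) ≤ _
    rw [← pow_mul]
    refine Nat.pow_le_pow_right (by norm_num) ?_
    rw [pow_add]
    refine Nat.mul_le_mul_left _ ?_
    calc q1 + q2 ≤ 2 ^ (q1 + q2) := Nat.lt_two_pow_self.le
      _ ≤ nm k m x a b ^ (q1 + q2) := Nat.pow_le_pow_left (nm_two k m x a b) _
  have hread : ∀ j, PF k m (fun x a b =>
      (Nat.rec (i0 x a b) (fun t s => F x (cns t a) (cns s b)) (c x a b) : ℕ) /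
        Bk x a b ^ j % Bk x a b) := fun j =>
    (harf k m _ _ ((harf k m _ _ hrec (hBkj j)).2.2.2.1) hBk).2.2.2.2.1
  refine ⟨fun j hj => ?_, fun j hj => ?_⟩
  · have e : (fun x a b => (vip q1 q2 bs bS is iS x a b (c x a b)).1 j) = fun x a b =>
        (Nat.rec (i0 x a b) (fun t s => F x (cns t a) (cns s b)) (c x a b) : ℕ) /
        Bk x a b ^ j % Bk x a b := by
      funext x a b
      rw [hst x a b _ le_rfl]
      obtain ⟨g1, g2⟩ := hlt x a b _ le_rfl
      exact ((pack_dig (Bk x a b) q1 q2 _ _ g1 g2).1 j hj).symm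
    refine (harb k m _ _ hNk hNk).2.2.2.2.2 _ ?_ fun x a b => (hC x a b _ le_rfl).1 j hj
    rw [e]
    exact hread j
  · have e : (fun x a b => (vip q1 q2 bs bS is iS x a b (c x a b)).2 j) = fun x a b =>
        (Nat.rec (i0 x a b) (fun t s => F x (cns t a) (cns s b)) (c x a b) : ℕ) /
        Bk x a b ^ (q1 + j) % Bk x a b := by
      funext x a b
      rw [hst x a b _ le_rfl]
      obtain ⟨g1, g2⟩ := hlt x a b _ le_rfl
      exact ((pack_dig (Bk x a b) q1 q2 _ _ g1 g2).2.1 j hj).symm
    rw [e]
    exact hread (q1 + j)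

end Pool.Agent.UMG.H58V
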